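import Pool.Agent.N964.GX.Stm

/-! GX/A0 (helper608): the residue theorem for `F' / F` times a function with a simple pole. -/

set_option autoImplicit false

open Complex Filter Topology Set MeasureTheory

namespace Pool.Agent.N608.GXA0

open H370

lemma RI_cauchy' {a b c d : ℝ} (hab : a < b) (hcd : c < d) {h : ℂ → ℂ}
    (hh : DifferentiableOn ℂ h (Set.Icc a b ×ℂ Set.Icc c d))
    {p : ℂ} (hp : p ∈ Set.Ioo a b ×ℂ Set.Ioo c d) :
    RI a b c d (fun s => h s * (s - p)⁻¹) = 2 * Real.pi * I * h p := by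
  have hK : (Set.Icc a b ×ℂ Set.Icc c d) ∈ 𝓝 p := by
    apply Filter.mem_of_superset ((isOpen_Ioo.reProdIm isOpen_Ioo).mem_nhds hp)
    rintro s ⟨h1, h2⟩
    exact ⟨Ioo_subset_Icc_self h1, Ioo_subset_Icc_self h2⟩
  have hds : DifferentiableOn ℂ (dslope h p) (Set.Icc a b ×ℂ Set.Icc c d) :=
    (Complex.differentiableOn_dslope hK).2 hh
  have hB : ∀ s ∈ Bd a b c d, s ≠ p := fun s hs he => Bd_not_Ioo hs (he ▸ hp)
  have hci : ContinuousOn (fun s : ℂ => (s - p)⁻¹) (Bd a b c d) := by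
    apply ContinuousOn.inv₀ (by fun_prop)
    intro s hs
    exact sub_ne_zero.2 (hB s hs)
  have e1 : RI a b c d (fun s => h s * (s - p)⁻¹) =
      RI a b c d (fun s => dslope h p s + h p * (s - p)⁻¹) := by
    apply RI_congr hab.le hcd.le
    intro s hs
    rw [dslope_of_ne _ (hB s hs), slope_def_field]
    ring
  rw [e1, RI_add hab.le hcd.le (g := fun s => h p * (s - p)⁻¹)
    (hds.continuousOn.mono (Bd_sub hab.le hcd.le)) (continuousOn_const.mul hci),
    RI_zero hab.le hcd.le hds, RI_const_mul, RI_inv hp]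
  ring

/-- two simple poles -/
lemma RI_two {a b c d : ℝ} (hab : a < b) (hcd : c < d) {h : ℂ → ℂ}
    (hh : DifferentiableOn ℂ h (Set.Icc a b ×ℂ Set.Icc c d))
    {p r : ℂ} (hp : p ∈ Set.Ioo a b ×ℂ Set.Ioo c d) (hr : r ∈ Set.Ioo a b ×ℂ Set.Ioo c d)
    (hpr : p ≠ r) :
    RI a b c d (fun s => h s / (s - p) * (s - r)⁻¹) =
      2 * Real.pi * I * (h r / (r - p) + h p / (p - r)) := by
  have h1 : r - p ≠ 0 := sub_ne_zero.2 hpr.symm
  have h1' : p - r ≠ 0 := sub_ne_zero.2 hpr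
  have hB : ∀ s ∈ Bd a b c d, s ≠ p := fun s hs he => Bd_not_Ioo hs (he ▸ hp)
  have hB' : ∀ s ∈ Bd a b c d, s ≠ r := fun s hs he => Bd_not_Ioo hs (he ▸ hr)
  have hcont : ContinuousOn h (Bd a b c d) := hh.continuousOn.mono (Bd_sub hab.le hcd.le)
  have hc1 : ContinuousOn (fun s => (r - p)⁻¹ * (h s * (s - r)⁻¹)) (Bd a b c d) := by
    apply ContinuousOn.mul continuousOn_const
    apply ContinuousOn.mul hcont
    apply ContinuousOn.inv₀ (by fun_prop)
    intro s hs
    exact sub_ne_zero.2 (hB' s hs)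
  have hc2 : ContinuousOn (fun s => (p - r)⁻¹ * (h s * (s - p)⁻¹)) (Bd a b c d) := by
    apply ContinuousOn.mul continuousOn_const
    apply ContinuousOn.mul hcont
    apply ContinuousOn.inv₀ (by fun_prop)
    intro s hs
    exact sub_ne_zero.2 (hB s hs)
  have e1 : RI a b c d (fun s => h s / (s - p) * (s - r)⁻¹) =
      RI a b c d (fun s => (r - p)⁻¹ * (h s * (s - r)⁻¹) + (p - r)⁻¹ * (h s * (s - p)⁻¹)) := by
    apply RI_congr hab.le hcd.le
    intro s hs
    have h2 := sub_ne_zero.2 (hB s hs)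
    have h3 := sub_ne_zero.2 (hB' s hs)
    have h4 : (p - r)⁻¹ = -(r - p)⁻¹ := by rw [← neg_sub, inv_neg]
    rw [h4]
    field_simp
    ring
  rw [e1, RI_add hab.le hcd.le hc1 hc2, RI_const_mul, RI_const_mul, RI_cauchy' hab hcd hh hr,
    RI_cauchy' hab hcd hh hp]
  rw [div_eq_mul_inv, div_eq_mul_inv]
  ring

/-- induction form of the residue theorem for `F'/F * h` -/
lemma residue_aux {a b c d : ℝ} (hab : a < b) (hcd : c < d) {h : ℂ → ℂ}
    (hh : AnalyticOnNhd ℂ h (Set.Icc a b ×ℂ Set.Icc c d)) {p : ℂ}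
    (hp : p ∈ Set.Ioo a b ×ℂ Set.Ioo c d)
    (n : ℕ) : ∀ (F : ℂ → ℂ) (Z : Finset ℂ), Z.card = n →
      AnalyticOnNhd ℂ F (Set.Icc a b ×ℂ Set.Icc c d) →
      (∀ s ∈ Set.Icc a b ×ℂ Set.Icc c d, F s = 0 ↔ s ∈ Z) →
      (∀ s ∈ Z, s ∈ Set.Ioo a b ×ℂ Set.Ioo c d ∧ analyticOrderAt F s ≠ ⊤) →
      F p ≠ 0 → RI a b c d (fun s => deriv F s / F s * (h s / (s - p))) =
        2 * Real.pi * I * (deriv F p / F p * h p + ∑ s ∈ Z, (mult F s : ℂ) * (h s / (s - p))) := by
  have hpK : p ∈ Set.Icc a b ×ℂ Set.Icc c d :=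
    ⟨Ioo_subset_Icc_self hp.1, Ioo_subset_Icc_self hp.2⟩
  have hBp : ∀ s ∈ Bd a b c d, s ≠ p := fun s hs he => Bd_not_Ioo hs (he ▸ hp)
  have hhd : DifferentiableOn ℂ h (Set.Icc a b ×ℂ Set.Icc c d) := fun s hs =>
    (hh s hs).differentiableAt.differentiableWithinAt
  induction n with
  | zero =>
    intro F Z hZ hF hz _ _
    rw [Finset.card_eq_zero] at hZ
    subst hZ
    simp only [Finset.sum_empty, add_zero]
    have hd : DifferentiableOn ℂ (fun s => deriv F s / F s * h s)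
        (Set.Icc a b ×ℂ Set.Icc c d) := by
      intro s hs
      have h0 : F s ≠ 0 := fun h => by simpa using (hz s hs).1 h
      exact (((hF s hs).deriv.differentiableAt.div (hF s hs).differentiableAt h0).mul
        (hh s hs).differentiableAt).differentiableWithinAt
    rw [← RI_cauchy' hab hcd hd hp]
    apply RI_congr hab.le hcd.le
    intro s _
    rw [div_eq_mul_inv (h s)]
    ring
  | succ n ih =>
    intro F Z hZ hF hz hz2 hFp
    obtain ⟨ρ, hρ⟩ : Z.Nonempty := Finset.card_pos.1 (by omega)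
    obtain ⟨hρI, hρo⟩ := hz2 ρ hρ
    have hρK : ρ ∈ Set.Icc a b ×ℂ Set.Icc c d :=
      ⟨Ioo_subset_Icc_self hρI.1, Ioo_subset_Icc_self hρI.2⟩
    have hFρ := hF ρ hρK
    set m := mult F ρ with hm
    have hmo : analyticOrderAt F ρ = (m : ℕ∞) := by
      rw [hm, mult, Nat.cast_analyticOrderNatAt hρo]
    obtain ⟨g0, hg0, hg0ne, hg0e⟩ := (hFρ.analyticOrderAt_eq_natCast).1 hmo
    set G : ℂ → ℂ := Function.update (fun z => F z / (z - ρ) ^ m) ρ (g0 ρ) with hG
    have hGne : ∀ s, s ≠ ρ → G s = F s / (s - ρ) ^ m := by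
      intro s hs; rw [hG, Function.update_of_ne hs]
    have hGρ : G ρ = g0 ρ := by rw [hG, Function.update_self]
    -- F = (z-ρ)^m * G away from ρ
    have hFG : ∀ s, s ≠ ρ → F s = (s - ρ) ^ m * G s := by
      intro s hs
      rw [hGne s hs, mul_div_cancel₀]
      exact pow_ne_zero _ (sub_ne_zero.2 hs)
    have hGe : G =ᶠ[𝓝 ρ] g0 := by
      filter_upwards [hg0e] with z hzz
      by_cases hzρ : z = ρ
      · rw [hzρ, hGρ]
      · rw [hGne z hzρ, hzz, smul_eq_mul, mul_div_cancel_left₀]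
        exact pow_ne_zero _ (sub_ne_zero.2 hzρ)
    have hGe2 : ∀ s, s ≠ ρ → G =ᶠ[𝓝 s] fun z => F z / (z - ρ) ^ m := by
      intro s hs
      filter_upwards [isOpen_ne.mem_nhds hs] with z hz
      exact hGne z hz
    have hFe2 : ∀ s, s ≠ ρ → F =ᶠ[𝓝 s] fun z => (z - ρ) ^ m * G z := by
      intro s hs
      filter_upwards [isOpen_ne.mem_nhds hs] with z hz
      exact hFG z hz
    have hpow : ∀ s : ℂ, AnalyticAt ℂ (fun z => (z - ρ) ^ m) s := fun s => by fun_prop
    have hGan : AnalyticOnNhd ℂ G (Set.Icc a b ×ℂ Set.Icc c d) := by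
      intro s hs
      by_cases hsρ : s = ρ
      · subst hsρ; exact hg0.congr hGe.symm
      · exact ((hF s hs).div (hpow s) (pow_ne_zero _ (sub_ne_zero.2 hsρ))).congr (hGe2 s hsρ).symm
    have hZ' : (Z.erase ρ).card = n := by rw [Finset.card_erase_of_mem hρ, hZ]; rfl
    have hz' : ∀ s ∈ Set.Icc a b ×ℂ Set.Icc c d, G s = 0 ↔ s ∈ Z.erase ρ := by
      intro s hs
      rw [Finset.mem_erase]
      by_cases hsρ : s = ρ
      · subst hsρ
        simp only [ne_eq, not_true_eq_false, false_and, iff_false]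
        rw [hGρ]; exact hg0ne
      · rw [hGne s hsρ, div_eq_zero_iff, hz s hs]
        simp [hsρ, sub_ne_zero.2 hsρ]
    have hord : ∀ s, s ≠ ρ → s ∈ Set.Icc a b ×ℂ Set.Icc c d →
        analyticOrderAt F s = analyticOrderAt G s := by
      intro s hs hsK
      rw [analyticOrderAt_congr (hFe2 s hs)]
      have : (fun z => (z - ρ) ^ m * G z) = (fun z => (z - ρ) ^ m) * G := rfl
      rw [this, analyticOrderAt_mul (hpow s) (hGan s hsK)]
      have h0 : analyticOrderAt (fun z => (z - ρ) ^ m) s = 0 :=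
        (hpow s).analyticOrderAt_eq_zero.2 (pow_ne_zero _ (sub_ne_zero.2 hs))
      rw [h0, zero_add]
    have hz2' : ∀ s ∈ Z.erase ρ, s ∈ Set.Ioo a b ×ℂ Set.Ioo c d ∧ analyticOrderAt G s ≠ ⊤ := by
      intro s hs
      rw [Finset.mem_erase] at hs
      obtain ⟨h1, h2⟩ := hz2 s hs.2
      refine ⟨h1, ?_⟩
      rw [← hord s hs.1 ⟨Ioo_subset_Icc_self h1.1, Ioo_subset_Icc_self h1.2⟩]
      exact h2
    have hpρ : p ≠ ρ := by
      rintro rfl
      exact hFp ((hz p hpK).2 hρ)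
    have hGp : G p ≠ 0 := by
      intro h0
      have h1 := (hz' p hpK).1 h0
      rw [Finset.mem_erase] at h1
      exact hFp ((hz p hpK).2 h1.2)
    have IH := ih G (Z.erase ρ) hZ' hGan hz' hz2' hGp
    -- splitting on the boundary
    have hBK := Bd_sub hab.le hcd.le
    have hBρ : ∀ s ∈ Bd a b c d, s ≠ ρ := fun s hs he => Bd_not_Ioo hs (he ▸ hρI)
    have hBG : ∀ s ∈ Bd a b c d, G s ≠ 0 := by
      intro s hs h0
      have := (hz' s (hBK hs)).1 h0
      exact Bd_not_Ioo hs (hz2' s this).1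
    have hlog : ∀ s ∈ Set.Icc a b ×ℂ Set.Icc c d, s ≠ ρ → G s ≠ 0 →
        deriv F s / F s = deriv G s / G s + (m : ℂ) * (s - ρ)⁻¹ := by
      intro s hs hsρ hGs
      have hsub := sub_ne_zero.2 hsρ
      have h1 : deriv F s = m * (s - ρ) ^ (m - 1) * G s + (s - ρ) ^ m * deriv G s := by
        rw [(hFe2 s hsρ).deriv_eq]
        have hd1 : HasDerivAt (fun z : ℂ => (z - ρ) ^ m) (m * (s - ρ) ^ (m - 1)) s := by
          have h3 := ((hasDerivAt_id s).sub_const ρ).fun_pow m
          simpa using h3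
        exact (hd1.mul (hGan s hs).differentiableAt.hasDerivAt).deriv
      rw [h1, hFG s hsρ]
      rcases Nat.eq_zero_or_pos m with h0 | hpos
      · rw [h0]; simp
      · obtain ⟨k, hk⟩ : ∃ k, m = k + 1 := ⟨m - 1, by omega⟩
        rw [hk]
        simp only [Nat.add_sub_cancel, pow_succ]
        field_simp
        ring
    have hsplit : RI a b c d (fun s => deriv F s / F s * (h s / (s - p))) =
        RI a b c d (fun s => deriv G s / G s * (h s / (s - p)) +
          (m : ℂ) * (h s / (s - p) * (s - ρ)⁻¹)) := by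
      apply RI_congr hab.le hcd.le
      intro s hs
      rw [hlog s (hBK hs) (hBρ s hs) (hBG s hs)]
      ring
    have hW : ContinuousOn (fun s => h s / (s - p)) (Bd a b c d) := by
      apply ContinuousOn.div (hhd.continuousOn.mono hBK) (by fun_prop)
      intro s hs
      exact sub_ne_zero.2 (hBp s hs)
    have hcont1 : ContinuousOn (fun s => deriv G s / G s * (h s / (s - p))) (Bd a b c d) := by
      apply ContinuousOn.mul _ hW
      intro s hs
      exact ((hGan s (hBK hs)).deriv.continuousAt.div (hGan s (hBK hs)).continuousAt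
        (hBG s hs)).continuousWithinAt
    have hcont2 : ContinuousOn (fun s => (m : ℂ) * (h s / (s - p) * (s - ρ)⁻¹)) (Bd a b c d) := by
      apply ContinuousOn.mul continuousOn_const
      apply ContinuousOn.mul hW
      apply ContinuousOn.inv₀ (by fun_prop)
      intro s hs
      exact sub_ne_zero.2 (hBρ s hs)
    rw [hsplit, RI_add hab.le hcd.le hcont1 hcont2, IH, RI_const_mul,
      RI_two hab hcd hhd hp hρI hpρ, ← Finset.add_sum_erase Z _ hρ, hlog p hpK hpρ hGp]
    have e : ∑ s ∈ Z.erase ρ, (mult G s : ℂ) * (h s / (s - p)) =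
        ∑ s ∈ Z.erase ρ, (mult F s : ℂ) * (h s / (s - p)) := by
      apply Finset.sum_congr rfl
      intro s hs
      rw [Finset.mem_erase] at hs
      have h1 := (hz2 s hs.2).1
      have := hord s hs.1 ⟨Ioo_subset_Icc_self h1.1, Ioo_subset_Icc_self h1.2⟩
      rw [mult, mult, analyticOrderNatAt, analyticOrderNatAt, this]
    rw [e]
    rw [div_eq_mul_inv (h p) (p - ρ)]
    ring

theorem res : Pool.Agent.N964.GX.S_res := by
  intro F h a b c d p hab hcd hF hh hbd hp hFp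
  set K : Set ℂ := Set.Icc a b ×ℂ Set.Icc c d with hK
  have hKc : IsCompact K := isCompact_Icc.reProdIm isCompact_Icc
  have hKpre : IsPreconnected K := by
    have : Convex ℝ K := by
      have h1 := (convex_Icc a b).linear_preimage Complex.reLm
      have h2 := (convex_Icc c d).linear_preimage Complex.imLm
      exact h1.inter h2
    exact this.isPreconnected
  have hcorner : (⟨a, c⟩ : ℂ) ∈ K := ⟨⟨le_rfl, hab.le⟩, ⟨le_rfl, hcd.le⟩⟩
  have hcF : F ⟨a, c⟩ ≠ 0 := by
    intro h0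
    have := (hbd _ hcorner h0).1
    rw [mem_preimage] at this
    exact absurd this.1 (lt_irrefl _)
  have hnt0 : ∀ s ∈ K, ¬ (∀ᶠ z in 𝓝 s, F z = 0) := fun s hs h1 =>
    hcF (hF.eqOn_zero_of_preconnected_of_eventuallyEq_zero hKpre hs h1 hcorner)
  have hnt : ∀ s ∈ K, ∀ᶠ z in 𝓝[≠] s, F z ≠ 0 := by
    intro s hs
    rcases (hF s hs).eventually_eq_zero_or_eventually_ne_zero with h1 | h1
    · exact absurd h1 (hnt0 s hs)
    · exact h1
  have hfin : Set.Finite {s | s ∈ K ∧ F s = 0} := by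
    by_contra hinf
    obtain ⟨z, hz, hacc⟩ := Set.Infinite.exists_accPt_of_subset_isCompact hinf hKc
      (fun s hs => hs.1)
    rw [accPt_iff_frequently_nhdsNE] at hacc
    have := hacc.and_eventually (hnt z hz)
    obtain ⟨w, hw⟩ := this.exists
    exact hw.2 hw.1.2
  have hset : {s | s ∈ Set.Ioo a b ×ℂ Set.Ioo c d ∧ F s = 0} = {s | s ∈ K ∧ F s = 0} := by
    ext s
    constructor
    · rintro ⟨h1, h2⟩
      exact ⟨⟨Ioo_subset_Icc_self h1.1, Ioo_subset_Icc_self h1.2⟩, h2⟩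
    · rintro ⟨h1, h2⟩
      exact ⟨hbd s h1 h2, h2⟩
  rw [hset]
  refine ⟨hfin, ?_⟩
  have key := residue_aux hab hcd hh hp (hfin.toFinset.card) F hfin.toFinset rfl hF
    (by
      intro s hs
      rw [Set.Finite.mem_toFinset]
      exact ⟨fun h => ⟨hs, h⟩, fun h => h.2⟩)
    (by
      intro s hs
      rw [Set.Finite.mem_toFinset] at hs
      refine ⟨hbd s hs.1 hs.2, ?_⟩
      intro h
      exact hnt0 s hs.1 (analyticOrderAt_eq_top.1 h))
    hFp
  rw [finsum_mem_eq_finite_toFinset_sum _ hfin, ← key]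

end Pool.Agent.N608.GXA0
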